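import Mathlib
import Pool.Agent.N299.DT.Stm

/-!
Project DT (helper299), task UN: union of two commuting order zero maps.
-/

set_option autoImplicit false
set_option linter.unusedSectionVars false
set_option linter.unusedSimpArgs false

noncomputable section

namespace Pool.Agent.N22.DT.UN

open Pool.Agent.N299 Pool.Agent.N299.DT

section alg

variable {E : Type} [Ring E] [Algebra ℂ E] {n : ℕ} {a b w : E} {P Q : Fin n → Fin n → E}

/-- `L_ij = ∑_k P_kj Q_ik` -/
def Lm (P Q : Fin n → Fin n → E) (i j : Fin n) : E := ∑ k, P k j * Q i k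
/-- `R_ij = ∑_k P_ik Q_kj` -/
def Rm (P Q : Fin n → Fin n → E) (i j : Fin n) : E := ∑ k, P i k * Q k j

/-- the algebraic data -/
structure UD (a b w : E) (P Q : Fin n → Fin n → E) : Prop where
  pp : ∀ i j k l, P i j * P k l = if j = k then a * P i l else 0
  qq : ∀ i j k l, Q i j * Q k l = if j = k then b * Q i l else 0
  ps : ∑ i, P i i = a
  qs : ∑ i, Q i i = b
  qp : ∀ i j k l, Q i j * P k l = P k l * Q i j
  aw : a * w = w * a
  bw : b * w = w * b
  pw : ∀ i j, P i j * w = w * P i j
  qw : ∀ i j, Q i j * w = w * Q i j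
  ba : b * a = a * b
  pa : ∀ i j, P i j * a = a * P i j
  qa : ∀ i j, Q i j * a = a * Q i j
  pb : ∀ i j, P i j * b = b * P i j
  qb : ∀ i j, Q i j * b = b * Q i j

namespace UD

variable (h : UD a b w P Q)
include h

lemma pp' (i j k l : Fin n) (x : E) :
    P i j * (P k l * x) = if j = k then a * (P i l * x) else 0 := by
  rw [← mul_assoc, h.pp]; split_ifs <;> simp [mul_assoc]
lemma qq' (i j k l : Fin n) (x : E) :
    Q i j * (Q k l * x) = if j = k then b * (Q i l * x) else 0 := by
  rw [← mul_assoc, h.qq]; split_ifs <;> simp [mul_assoc]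
lemma qp' (i j k l : Fin n) (x : E) : Q i j * (P k l * x) = P k l * (Q i j * x) := by
  rw [← mul_assoc, h.qp, mul_assoc]
lemma aw' (x : E) : a * (w * x) = w * (a * x) := by rw [← mul_assoc, h.aw, mul_assoc]
lemma bw' (x : E) : b * (w * x) = w * (b * x) := by rw [← mul_assoc, h.bw, mul_assoc]
lemma pw' (i j : Fin n) (x : E) : P i j * (w * x) = w * (P i j * x) := by
  rw [← mul_assoc, h.pw, mul_assoc]
lemma qw' (i j : Fin n) (x : E) : Q i j * (w * x) = w * (Q i j * x) := by
  rw [← mul_assoc, h.qw, mul_assoc]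
lemma ba' (x : E) : b * (a * x) = a * (b * x) := by rw [← mul_assoc, h.ba, mul_assoc]
lemma pa' (i j : Fin n) (x : E) : P i j * (a * x) = a * (P i j * x) := by
  rw [← mul_assoc, h.pa, mul_assoc]
lemma qa' (i j : Fin n) (x : E) : Q i j * (a * x) = a * (Q i j * x) := by
  rw [← mul_assoc, h.qa, mul_assoc]
lemma pb' (i j : Fin n) (x : E) : P i j * (b * x) = b * (P i j * x) := by
  rw [← mul_assoc, h.pb, mul_assoc]
lemma qb' (i j : Fin n) (x : E) : Q i j * (b * x) = b * (Q i j * x) := by
  rw [← mul_assoc, h.qb, mul_assoc]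

lemma PL (i j k l : Fin n) : P i j * Lm P Q k l = a * (P i l * Q k j) := by
  simp [Lm, Finset.mul_sum, h.pp', mul_assoc]

lemma PR (i j k l : Fin n) : P i j * Rm P Q k l = if j = k then a * Rm P Q i l else 0 := by
  simp only [Rm, Finset.mul_sum, h.pp', mul_assoc]
  split_ifs <;> simp

lemma LP (i j k l : Fin n) : Lm P Q i j * P k l = if j = k then a * Lm P Q i l else 0 := by
  simp only [Lm, Finset.mul_sum, Finset.sum_mul, h.qp, h.pp', mul_assoc]
  split_ifs <;> simp

lemma RP (i j k l : Fin n) : Rm P Q i j * P k l = a * (P i l * Q k j) := by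
  simp [Rm, Finset.mul_sum, Finset.sum_mul, h.qp, h.pp', mul_assoc]

lemma QL (i j k l : Fin n) : Q i j * Lm P Q k l = if j = k then b * Lm P Q i l else 0 := by
  simp only [Lm, Finset.mul_sum, Finset.sum_mul, h.qp', h.qq, mul_assoc]
  split_ifs <;> simp [h.pb']

lemma QR (i j k l : Fin n) : Q i j * Rm P Q k l = b * (P k j * Q i l) := by
  simp [Rm, Finset.mul_sum, Finset.sum_mul, h.qp', h.qq, mul_assoc, h.pb']

lemma LQ (i j k l : Fin n) : Lm P Q i j * Q k l = b * (P k j * Q i l) := by
  simp [Lm, Finset.mul_sum, Finset.sum_mul, h.qp', h.qq, mul_assoc, h.pb']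

lemma RQ (i j k l : Fin n) : Rm P Q i j * Q k l = if j = k then b * Rm P Q i l else 0 := by
  simp only [Rm, Finset.mul_sum, Finset.sum_mul, h.qp', h.qq, mul_assoc]
  split_ifs <;> simp [h.pb']

lemma LL (i j k l : Fin n) : Lm P Q i j * Lm P Q k l = a * (b * (P k l * Q i j)) := by
  simp [Lm, Finset.mul_sum, Finset.sum_mul, h.qp', h.qq, h.pp', mul_assoc, h.pb', h.ba']

lemma RR (i j k l : Fin n) : Rm P Q i j * Rm P Q k l = a * (b * (P i j * Q k l)) := by
  simp [Rm, Finset.mul_sum, Finset.sum_mul, h.qp', h.qq, h.pp', mul_assoc, h.pb', h.ba']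

lemma LR (i j k l : Fin n) :
    Lm P Q i j * Rm P Q k l = if j = k then a * (a * (b * Q i l)) else 0 := by
  simp only [Lm, Rm, Finset.mul_sum, Finset.sum_mul, mul_assoc, h.qp', h.qq, h.pp']
  split_ifs
  · simp [h.pb', ← Finset.sum_mul, ← Finset.mul_sum, h.ps, h.ba', h.ba]
  · simp

lemma RL (i j k l : Fin n) :
    Rm P Q i j * Lm P Q k l = if j = k then a * (b * (b * P i l)) else 0 := by
  simp only [Lm, Rm, Finset.mul_sum, Finset.sum_mul, mul_assoc, h.qp', h.qq, h.pp']
  split_ifs
  · simp [h.pb', ← Finset.sum_mul, ← Finset.mul_sum, h.qs, h.ba', h.ba, h.pb]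
  · simp


lemma aL (i j : Fin n) : Lm P Q i j * a = a * Lm P Q i j := by
  simp only [Lm, Finset.mul_sum, Finset.sum_mul, mul_assoc, h.qa, h.pa']
lemma aR (i j : Fin n) : Rm P Q i j * a = a * Rm P Q i j := by
  simp only [Rm, Finset.mul_sum, Finset.sum_mul, mul_assoc, h.qa, h.pa']
lemma bL (i j : Fin n) : Lm P Q i j * b = b * Lm P Q i j := by
  simp only [Lm, Finset.mul_sum, Finset.sum_mul, mul_assoc, h.qb, h.pb']
lemma bR (i j : Fin n) : Rm P Q i j * b = b * Rm P Q i j := by
  simp only [Rm, Finset.mul_sum, Finset.sum_mul, mul_assoc, h.qb, h.pb']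
lemma wL (i j : Fin n) : Lm P Q i j * w = w * Lm P Q i j := by
  simp only [Lm, Finset.mul_sum, Finset.sum_mul, mul_assoc, h.qw, h.pw']
lemma wR (i j : Fin n) : Rm P Q i j * w = w * Rm P Q i j := by
  simp only [Rm, Finset.mul_sum, Finset.sum_mul, mul_assoc, h.qw, h.pw']
lemma aL' (i j : Fin n) (x : E) : Lm P Q i j * (a * x) = a * (Lm P Q i j * x) := by
  rw [← mul_assoc, h.aL, mul_assoc]
lemma aR' (i j : Fin n) (x : E) : Rm P Q i j * (a * x) = a * (Rm P Q i j * x) := by
  rw [← mul_assoc, h.aR, mul_assoc]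
lemma bL' (i j : Fin n) (x : E) : Lm P Q i j * (b * x) = b * (Lm P Q i j * x) := by
  rw [← mul_assoc, h.bL, mul_assoc]
lemma bR' (i j : Fin n) (x : E) : Rm P Q i j * (b * x) = b * (Rm P Q i j * x) := by
  rw [← mul_assoc, h.bR, mul_assoc]
lemma wL' (i j : Fin n) (x : E) : Lm P Q i j * (w * x) = w * (Lm P Q i j * x) := by
  rw [← mul_assoc, h.wL, mul_assoc]
lemma wR' (i j : Fin n) (x : E) : Rm P Q i j * (w * x) = w * (Rm P Q i j * x) := by
  rw [← mul_assoc, h.wR, mul_assoc]

omit h in
/-- `ψ` -/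
def psi (a b w : E) (P Q : Fin n → Fin n → E) (i j : Fin n) : E :=
  a * P i j + w * (w * (b * Q i j)) + Complex.I • (w * (Lm P Q i j - Rm P Q i j))

omit h in
/-- `θ` -/
def tht (a b w : E) : E := a * a + w * (w * (b * b))

lemma psi_mul (i j k l : Fin n) :
    psi a b w P Q i j * psi a b w P Q k l =
      if j = k then tht a b w * psi a b w P Q i l else 0 := by
  have hI : Complex.I * Complex.I = -1 := Complex.I_mul_I
  unfold psi tht
  simp only [mul_add, add_mul, mul_sub, sub_mul, smul_mul_assoc, mul_smul_comm, smul_sub, smul_add,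
    mul_assoc, h.pw', h.qw', h.wL', h.wR', h.aw', h.bw', h.pa', h.qa', h.aL', h.aR', h.ba',
    h.pb', h.qb', h.bL', h.bR', h.pp, h.qq, h.qp, h.PL, h.PR, h.LP, h.RP, h.QL, h.QR, h.LQ, h.RQ,
    h.LL, h.RR, h.LR, h.RL, smul_smul, hI]
  split_ifs with hjk
  · subst hjk
    module
  · simp only [mul_zero, smul_zero]
    module

end UD

end alg

section cstar

variable {E : Type} [CStarAlgebra E]

/-- `w = √(1 - a²)` -/
def wf (a : E) : E := cfc (fun t : ℝ => Real.sqrt (max (1 - t ^ 2) 0)) a

lemma wf_star (a : E) : star (wf a) = wf a := cfc_sa _ _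

lemma wf_mul {a : E} (ha : Pos a) (ha' : Pos (1 - a)) : wf a * wf a = 1 - a * a := by
  let _ : PartialOrder E := CStarAlgebra.spectralOrder E
  let _ : StarOrderedRing E := CStarAlgebra.spectralOrderedRing E
  have hsa : IsSelfAdjoint a := ha.sa
  rw [pos_iff] at ha ha'
  have h1 : ‖a‖ ≤ 1 := (CStarAlgebra.norm_le_one_iff_of_nonneg a ha).2 (sub_nonneg.1 ha')
  unfold wf
  rw [← cfc_mul (R := ℝ) _ _ a (by fun_prop) (by fun_prop)]
  have h2 : (1 : E) - a * a = cfc (fun t : ℝ => 1 - t * t) a := by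
    rw [cfc_sub (R := ℝ) _ _ a (by fun_prop) (by fun_prop),
      cfc_mul (R := ℝ) (fun t => t) (fun t => t) a (by fun_prop) (by fun_prop), cfc_id' ℝ a,
      cfc_const_one ℝ a]
  rw [h2]
  refine cfc_congr fun t ht => ?_
  have h3 : ‖t‖ ≤ 1 := by
    rcases subsingleton_or_nontrivial E with hE | hE
    · have : spectrum ℝ a = ∅ := spectrum.of_subsingleton a
      rw [this] at ht
      exact absurd ht (Set.notMem_empty _)
    · exact (spectrum.norm_le_norm_of_mem ht).trans h1
  have h4 : 0 ≤ 1 - t ^ 2 := by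
    rw [Real.norm_eq_abs, abs_le] at h3
    nlinarith
  simp only [max_eq_left h4]
  rw [Real.mul_self_sqrt h4]
  ring

lemma wf_comm {a x : E} (hx : x * a = a * x) : x * wf a = wf a * x :=
  (Commute.cfc_real (a := a) (b := x) hx.symm _).symm

lemma pos_one_sub_sq {a : E} (ha : Pos a) (ha' : Pos (1 - a)) : Pos (1 - a * a) := by
  rw [← wf_mul ha ha']
  nth_rewrite 1 [← wf_star]
  exact pos_star_mul _

end cstar

theorem t_UN : S_UN := by
  intro N E _ a b P Q hP hQ hPQ
  have hsa : star a = a := hP.pos.sa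
  have hsb : star b = b := hQ.pos.sa
  -- commutation of the `P`s with `a`
  have hpa : ∀ i j, P i j * a = a * P i j := by
    intro i j
    nth_rewrite 1 [← hP.sum]
    rw [Finset.mul_sum, Finset.sum_eq_single j, hP.mul]
    · intro m _ hm
      exact hP.orth _ _ _ _ (Ne.symm hm)
    · simp
  have hqb : ∀ i j, Q i j * b = b * Q i j := by
    intro i j
    nth_rewrite 1 [← hQ.sum]
    rw [Finset.mul_sum, Finset.sum_eq_single j, hQ.mul]
    · intro m _ hm
      exact hQ.orth _ _ _ _ (Ne.symm hm)
    · simp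
  have hqa : ∀ i j, Q i j * a = a * Q i j := by
    intro i j
    rw [← hP.sum, Finset.mul_sum, Finset.sum_mul]
    exact Finset.sum_congr rfl fun k _ => (hPQ _ _ _ _).symm
  have hpb : ∀ i j, P i j * b = b * P i j := by
    intro i j
    rw [← hQ.sum, Finset.mul_sum, Finset.sum_mul]
    exact Finset.sum_congr rfl fun k _ => hPQ _ _ _ _
  have hba : b * a = a * b := by
    rw [← hQ.sum, Finset.mul_sum, Finset.sum_mul]
    exact Finset.sum_congr rfl fun k _ => hqa _ _
  set w : E := wf a with hw
  have hww : w * w = 1 - a * a := wf_mul hP.pos hP.le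
  have hsw : star w = w := wf_star a
  have hU : UD a b w P Q :=
    { pp := fun i j k l => by
        split_ifs with h
        · subst h; exact hP.mul _ _ _
        · exact hP.orth _ _ _ _ h
      qq := fun i j k l => by
        split_ifs with h
        · subst h; exact hQ.mul _ _ _
        · exact hQ.orth _ _ _ _ h
      ps := hP.sum
      qs := hQ.sum
      qp := fun i j k l => (hPQ _ _ _ _).symm
      aw := wf_comm rfl
      bw := wf_comm hba
      pw := fun i j => wf_comm (hpa i j)
      qw := fun i j => wf_comm (hqa i j)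
      ba := hba
      pa := hpa
      qa := hqa
      pb := hpb
      qb := hqb }
  have hsL : ∀ i j, star (Lm P Q i j) = Rm P Q j i := by
    intro i j
    simp only [Lm, Rm, star_sum, star_mul, hP.st, hQ.st]
    exact Finset.sum_congr rfl fun k _ => (hPQ _ _ _ _).symm
  have hsR : ∀ i j, star (Rm P Q i j) = Lm P Q j i := by
    intro i j
    rw [← hsL, star_star]
  have hle : 1 - UD.tht a b w = (1 - a * a) * (1 - b * b) := by
    unfold UD.tht
    rw [← mul_assoc w w, hww]
    noncomm_ring
  have hwb : w * b = b * w := (hU.bw).symm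
  refine ⟨UD.tht a b w, UD.psi a b w P Q, ?_, hle, ?_, ?_⟩
  · refine ⟨?_, ?_, ?_, ?_, ?_, ?_⟩
    · intro i j
      unfold UD.psi
      simp only [star_add, star_mul, star_smul, star_sub, hP.st, hQ.st, hsa, hsb, hsw, hsL, hsR,
        RCLike.star_def, Complex.conj_I, sub_mul, hU.pa, hU.wL, hU.wR, hU.bw,
        mul_assoc, mul_sub, smul_sub, neg_smul]
      rw [hU.qw', hU.qw', hU.qb]
      abel
    · intro i j l
      rw [hU.psi_mul, if_pos rfl]
    · intro i j k l h
      rw [hU.psi_mul, if_neg h]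
    · unfold UD.psi UD.tht
      rw [Finset.sum_add_distrib, Finset.sum_add_distrib, ← Finset.mul_sum, hP.sum,
        ← Finset.smul_sum, ← Finset.mul_sum, ← Finset.mul_sum, ← Finset.mul_sum, ← Finset.mul_sum,
        hQ.sum, Finset.sum_sub_distrib]
      have : ∑ i, Lm P Q i i = ∑ i, Rm P Q i i := by
        unfold Lm Rm
        exact Finset.sum_comm
      rw [this]
      simp
    · have : UD.tht a b w = star a * a + star (w * b) * (w * b) := by
        unfold UD.tht
        rw [star_mul, hsa, hsb, hsw]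
        simp only [mul_assoc, hU.bw', hU.bw]
      rw [this]
      exact (pos_star_mul _).add (pos_star_mul _)
    · rw [hle, ← hww]
      have : w * w * (1 - b * b) = star w * (1 - b * b) * w := by
        rw [hsw, mul_assoc, mul_assoc]
        congr 1
        rw [mul_sub, sub_mul, mul_one, one_mul, mul_assoc b b w, hU.bw, hU.bw']
      rw [this]
      exact (pos_one_sub_sq hQ.pos hQ.le).conj _
  · intro x hxP hxQ i j
    have c1 : ∀ i j, Commute x (P i j) := hxP
    have c2 : ∀ i j, Commute x (Q i j) := hxQ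
    have ca : Commute x a := by
      rw [← hP.sum]
      exact Commute.sum_right _ _ _ fun i _ => c1 i i
    have cb : Commute x b := by
      rw [← hQ.sum]
      exact Commute.sum_right _ _ _ fun i _ => c2 i i
    have cw : Commute x w := wf_comm ca
    have cL : Commute x (Lm P Q i j) :=
      Commute.sum_right _ _ _ fun k _ => (c1 _ _).mul_right (c2 _ _)
    have cR : Commute x (Rm P Q i j) :=
      Commute.sum_right _ _ _ fun k _ => (c1 _ _).mul_right (c2 _ _)
    show Commute x _
    unfold UD.psi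
    exact ((ca.mul_right (c1 _ _)).add_right (cw.mul_right (cw.mul_right (cb.mul_right
      (c2 _ _))))).add_right ((cw.mul_right (cL.sub_right cR)).smul_right _)
  · intro k hk1 hk2
    have h1 : w * w * k = 0 := by
      rw [hww, sub_mul, one_mul, mul_assoc, hk2, hk2, sub_self]
    have h2 : w * k = 0 := by
      rw [← CStarRing.star_mul_self_eq_zero_iff, star_mul, hsw, mul_assoc, ← mul_assoc w w k, h1,
        mul_zero]
    have hr : ∀ x : E, x * w = w * x → w * x * k = 0 := by
      intro x hx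
      rw [← hx, mul_assoc, h2, mul_zero]
    have e1 : w * (w * (b * Q 0 0)) * k = 0 := by
      apply hr
      simp only [mul_assoc, hU.bw, hU.qw, hU.bw', hU.qw']
    have e2 : w * (Lm P Q 0 0 - Rm P Q 0 0) * k = 0 := by
      apply hr
      rw [sub_mul, mul_sub, hU.wL, hU.wR]
    have e3 : w * (w * (b * b)) * k = 0 := by
      apply hr
      simp only [mul_assoc, hU.bw, hU.bw']
    constructor
    · unfold UD.psi
      rw [add_mul, add_mul, smul_mul_assoc, e1, e2, mul_assoc, hk1, hk2, smul_zero, add_zero,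
        add_zero]
    · unfold UD.tht
      rw [add_mul, e3, mul_assoc, hk2, hk2, add_zero]

end Pool.Agent.N22.DT.UN
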